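import Mathlib

set_option autoImplicit false
set_option linter.unusedSectionVars false

open Polynomial

namespace Pool.Agent.Helper45.Shelved.TubularLinear

/-- The module `R^σ ⊕ R^σ`. -/
abbrev V (σ : Type) (R : Type) : Type := (σ → R) × (σ → R)

section Generic

variable {σ : Type} [Fintype σ] [DecidableEq σ]
variable {R : Type} [CommRing R] [Algebra ℚ R]

/-- Unipotent operator attached to `c`. -/
def Z (c : σ → R) : V σ R →ₗ[R] V σ R where
  toFun y := (y.1, fun s => y.2 s + c s * y.1 s)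
  map_add' y z := by
    ext s
    · rfl
    · simp only [Prod.fst_add, Prod.snd_add, Pi.add_apply]; ring
  map_smul' a y := by
    ext s
    · rfl
    · simp only [Prod.smul_fst, Prod.smul_snd, Pi.smul_apply, smul_eq_mul, RingHom.id_apply]; ring

/-- The coefficients of the monomial intertwiner. -/
def kap (val : σ → ℤ) (r r' s : σ) : ℚ :=
  if s = r then 1 else ((val r - val s : ℤ) : ℚ) / ((val r' - val (Equiv.swap r r' s) : ℤ) : ℚ)

/-- Monomial intertwiner. -/
def Q (R : Type) [CommRing R] [Algebra ℚ R] (val : σ → ℤ) (r r' : σ) : V σ R →ₗ[R] V σ R where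
  toFun y := (fun s => y.1 (Equiv.swap r r' s),
    fun s => algebraMap ℚ R (kap val r r' s) * y.2 (Equiv.swap r r' s))
  map_add' y z := by
    ext s
    · rfl
    · simp only [Prod.snd_add, Pi.add_apply]; ring
  map_smul' a y := by
    ext s
    · rfl
    · simp only [Prod.smul_snd, Pi.smul_apply, smul_eq_mul, RingHom.id_apply]; ring

/-- The vector attached to a letter. -/
def vec (R : Type) [CommRing R] [Algebra ℚ R] (r : σ) (cbar : ℚ) : V σ R :=
  (fun s => if s = r then 1 else 0, fun _ => algebraMap ℚ R (-cbar))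

/-- The functional attached to a letter. -/
def fn (R : Type) [CommRing R] [Algebra ℚ R] (rbar : σ) (c : ℚ) : V σ R →ₗ[R] R where
  toFun y := algebraMap ℚ R c * ∑ s, y.1 s + y.2 rbar
  map_add' y z := by
    simp only [Prod.fst_add, Prod.snd_add, Pi.add_apply, Finset.sum_add_distrib]; ring
  map_smul' a y := by
    simp only [Prod.smul_fst, Prod.smul_snd, Pi.smul_apply, smul_eq_mul, RingHom.id_apply,
      ← Finset.mul_sum]
    ring

theorem kap_self (val : σ → ℤ) (r r' : σ) : kap val r r' r = 1 := by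
  simp [kap]

theorem kap_mul (val : σ → ℤ) (hval : Function.Injective val) (r r' s : σ) :
    kap val r r' s * kap val r' r (Equiv.swap r r' s) = 1 := by
  unfold kap
  by_cases h : s = r
  · subst h
    simp
  · have h' : Equiv.swap r r' s ≠ r' := by
      intro e
      apply h
      have := congrArg (Equiv.swap r r') e
      simpa using this
    rw [if_neg h, if_neg h']
    have e : Equiv.swap r' r (Equiv.swap r r' s) = s := by
      rw [Equiv.swap_comm]
      simp
    rw [e]
    have h1 : ((val r - val s : ℤ) : ℚ) ≠ 0 := by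
      have : val r - val s ≠ 0 := fun e => h (hval (by omega))
      exact_mod_cast this
    have h2 : ((val r' - val (Equiv.swap r r' s) : ℤ) : ℚ) ≠ 0 := by
      have : val r' - val (Equiv.swap r r' s) ≠ 0 := fun e => h' (hval (by omega))
      exact_mod_cast this
    field_simp

theorem kap_rel (val : σ → ℤ) (hval : Function.Injective val) (r r' s : σ) :
    kap val r r' s * ((val r' - val (Equiv.swap r r' s) : ℤ) : ℚ) = ((val r - val s : ℤ) : ℚ) := by
  unfold kap
  by_cases h : s = r
  · subst h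
    simp
  · have h' : Equiv.swap r r' s ≠ r' := by
      intro e
      apply h
      have := congrArg (Equiv.swap r r') e
      simpa using this
    rw [if_neg h]
    have h2 : ((val r' - val (Equiv.swap r r' s) : ℤ) : ℚ) ≠ 0 := by
      have : val r' - val (Equiv.swap r r' s) ≠ 0 := fun e => h' (hval (by omega))
      exact_mod_cast this
    field_simp

theorem Q_Q (val : σ → ℤ) (hval : Function.Injective val) (r r' : σ) (y : V σ R) :
    Q R val r r' (Q R val r' r y) = y := by
  ext s
  · simp only [Q, LinearMap.coe_mk, AddHom.coe_mk]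
    rw [Equiv.swap_comm r' r]
    simp
  · simp only [Q, LinearMap.coe_mk, AddHom.coe_mk]
    rw [← mul_assoc, ← map_mul, kap_mul val hval, map_one, one_mul, Equiv.swap_comm r' r]
    simp

theorem Z_Z (c d : σ → R) (y : V σ R) : Z c (Z d y) = Z (c + d) y := by
  ext s
  · rfl
  · simp only [Z, LinearMap.coe_mk, AddHom.coe_mk, Pi.add_apply]; ring

/-- `c_s = r - s`. -/
def cf (R : Type) [CommRing R] (val : σ → ℤ) (r : σ) : σ → R := fun s => ((val r - val s : ℤ) : R)

theorem Z_Q (val : σ → ℤ) (hval : Function.Injective val) (r r' : σ) (y : V σ R) :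
    Z (cf R val r) (Q R val r r' y) = Q R val r r' (Z (cf R val r') y) := by
  ext s
  · rfl
  · simp only [Q, Z, LinearMap.coe_mk, AddHom.coe_mk, cf]
    rw [mul_add]
    congr 1
    have h1 := kap_rel val hval r r' s
    have h2 := congrArg (algebraMap ℚ R) h1
    rw [map_mul, map_intCast, map_intCast] at h2
    rw [← h2]
    ring

theorem Z_vec (val : σ → ℤ) (r : σ) (cbar : ℚ) :
    Z (cf R val r) (vec R r cbar) = vec R r cbar := by
  ext s
  · rfl
  · simp only [Z, vec, LinearMap.coe_mk, AddHom.coe_mk, cf]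
    by_cases h : s = r
    · subst h; simp
    · simp [h]

theorem fn_Z (val : σ → ℤ) (rbar : σ) (c : ℚ) (y : V σ R) :
    fn R rbar c (Z (cf R val rbar) y) = fn R rbar c y := by
  simp [fn, Z, cf]

/-- `x` times the operator attached to a letter with data `(r,c)` and inverse data `(r',c')`. -/
def PB (val : σ → ℤ) (x : R) (r r' : σ) (c c' : ℚ) : V σ R →ₗ[R] V σ R :=
  x • Q R val r r' +
    (x * (x - 1) * algebraMap ℚ R (c - c')⁻¹) • (fn R r' c).smulRight (vec R r c') +
    ((x - 1) * algebraMap ℚ R (c - c')⁻¹) •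
      ((fn R r c').comp (Q R val r r')).smulRight (Q R val r r' (vec R r' c))

theorem PB_apply (val : σ → ℤ) (x : R) (r r' : σ) (c c' : ℚ) (y : V σ R) :
    PB val x r r' c c' y = x • Q R val r r' y +
      (x * (x - 1) * algebraMap ℚ R (c - c')⁻¹ * fn R r' c y) • vec R r c' +
      ((x - 1) * algebraMap ℚ R (c - c')⁻¹ * fn R r c' (Q R val r r' y)) •
        Q R val r r' (vec R r' c) := by
  simp only [PB, LinearMap.add_apply, LinearMap.smul_apply, LinearMap.smulRight_apply,
    LinearMap.comp_apply, smul_smul]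

theorem fn_vec (r : σ) (c : ℚ) : fn R r c (vec R r c) = 0 := by
  simp [fn, vec]

theorem fn_Q_vec (val : σ → ℤ) (r r' : σ) (c c' : ℚ) :
    fn R r c' (Q R val r r' (vec R r' c)) = algebraMap ℚ R (c' - c) := by
  have h : ∑ s, (if Equiv.swap r r' s = r' then (1 : R) else 0) = 1 := by
    rw [Finset.sum_eq_single r]
    · simp
    · intro b _ hb
      rw [if_neg]
      intro e
      apply hb
      have := congrArg (Equiv.swap r r') e
      simpa using this
    · intro h
      exact absurd (Finset.mem_univ _) h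
  simp only [fn, vec, Q, LinearMap.coe_mk, AddHom.coe_mk, h, kap_self]
  simp only [map_sub, map_neg, map_one]
  ring

theorem PB_PB (val : σ → ℤ) (hval : Function.Injective val) (x : R) (r r' : σ) (c c' : ℚ)
    (hc : c ≠ c') (y : V σ R) :
    PB val x r' r c' c (PB val x r r' c c' y) = (x * x) • y := by
  set n : R := algebraMap ℚ R (c - c')⁻¹ with hn
  have hn' : algebraMap ℚ R (c' - c)⁻¹ = -n := by
    rw [hn, ← map_neg]
    congr 1
    rw [← neg_sub c c', inv_neg]
  have hN : algebraMap ℚ R (c - c') * n = 1 := by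
    rw [hn, ← map_mul, mul_inv_cancel₀ (sub_ne_zero.2 hc), map_one]
  have hN' : algebraMap ℚ R (c' - c) = - algebraMap ℚ R (c - c') := by
    rw [← map_neg]
    congr 1
    ring
  set y' := PB val x r r' c c' y with hy'
  rw [PB_apply] at hy'
  have h1 : fn R r c' y' = fn R r c' (Q R val r r' y) := by
    rw [hy', map_add, map_add, map_smul, map_smul, map_smul, fn_vec, fn_Q_vec, hN', ← hn]
    simp only [smul_eq_mul, mul_zero, add_zero]
    linear_combination (-(x - 1) * fn R r c' (Q R val r r' y)) * hN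
  have h2 : Q R val r' r y' = x • y +
      (x * (x - 1) * n * fn R r' c y) • Q R val r' r (vec R r c') +
      ((x - 1) * n * fn R r c' (Q R val r r' y)) • vec R r' c := by
    rw [hy', map_add, map_add, map_smul, map_smul, map_smul, Q_Q val hval, Q_Q val hval]
  have h3 : fn R r' c (Q R val r' r y') = x * x * fn R r' c y := by
    rw [h2, map_add, map_add, map_smul, map_smul, map_smul, fn_vec, fn_Q_vec]
    simp only [smul_eq_mul, mul_zero, add_zero]
    linear_combination (x * (x - 1) * fn R r' c y) * hN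
  rw [PB_apply, h1, h3, hn', h2]
  rw [mul_smul x x y, smul_add, smul_add, smul_smul, smul_smul]
  module

theorem Z_PB (val : σ → ℤ) (hval : Function.Injective val) (x : R) (r r' : σ) (c c' : ℚ)
    (y : V σ R) :
    Z (cf R val r) (PB val x r r' c c' y) = PB val x r r' c c' (Z (cf R val r') y) := by
  rw [PB_apply, PB_apply, map_add, map_add, map_smul, map_smul, map_smul, Z_vec,
    Z_Q val hval, Z_Q val hval, Z_vec, fn_Z, ← Z_Q val hval, fn_Z]

end Generic

section Lead

variable {σ : Type} [Fintype σ] [DecidableEq σ]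

/-- `f` has degree at most `d` and coefficient `a` at `X^d`. -/
def LD (d : ℕ) (f : ℚ[X]) (a : ℚ) : Prop := f.natDegree ≤ d ∧ f.coeff d = a

theorem LD.add {d : ℕ} {f g : ℚ[X]} {a b : ℚ} (hf : LD d f a) (hg : LD d g b) :
    LD d (f + g) (a + b) :=
  ⟨(natDegree_add_le f g).trans (max_le hf.1 hg.1), by rw [coeff_add, hf.2, hg.2]⟩

theorem LD.mul {d e : ℕ} {f g : ℚ[X]} {a b : ℚ} (hf : LD d f a) (hg : LD e g b) :
    LD (d + e) (f * g) (a * b) :=
  ⟨natDegree_mul_le.trans (add_le_add hf.1 hg.1), by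
    rw [coeff_mul_add_eq_of_natDegree_le hf.1 hg.1, hf.2, hg.2]⟩

theorem LD.sum {ι : Type} (s : Finset ι) {d : ℕ} {f : ι → ℚ[X]} {a : ι → ℚ}
    (h : ∀ i ∈ s, LD d (f i) (a i)) : LD d (∑ i ∈ s, f i) (∑ i ∈ s, a i) :=
  ⟨natDegree_sum_le_of_forall_le s f (fun i hi => (h i hi).1), by
    rw [finsetSum_coeff]
    exact Finset.sum_congr rfl (fun i hi => (h i hi).2)⟩

theorem LD.lift {d e : ℕ} {f : ℚ[X]} {a : ℚ} (hf : LD d f a) (h : d < e) : LD e f 0 :=
  ⟨hf.1.trans h.le, coeff_eq_zero_of_natDegree_lt (lt_of_le_of_lt hf.1 h)⟩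

theorem LD_alg (a : ℚ) : LD 0 (algebraMap ℚ ℚ[X] a) a := by
  rw [Polynomial.algebraMap_eq]
  exact ⟨natDegree_C a |>.le, coeff_C_zero⟩

/-- Vector version of `LD`. -/
def Lead (d : ℕ) (y : V σ ℚ[X]) (u : V σ ℚ) : Prop :=
  (∀ s, LD d (y.1 s) (u.1 s)) ∧ ∀ s, LD d (y.2 s) (u.2 s)

theorem Lead.add {d : ℕ} {y z : V σ ℚ[X]} {u w : V σ ℚ} (hy : Lead d y u) (hz : Lead d z w) :
    Lead d (y + z) (u + w) :=
  ⟨fun s => (hy.1 s).add (hz.1 s), fun s => (hy.2 s).add (hz.2 s)⟩

theorem Lead.smul {d e : ℕ} {f : ℚ[X]} {a : ℚ} {y : V σ ℚ[X]} {u : V σ ℚ} (hf : LD d f a)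
    (hy : Lead e y u) : Lead (d + e) (f • y) (a • u) :=
  ⟨fun s => hf.mul (hy.1 s), fun s => hf.mul (hy.2 s)⟩

theorem Lead.lift {d e : ℕ} {y : V σ ℚ[X]} {u : V σ ℚ} (hy : Lead d y u) (h : d < e) :
    Lead e y 0 :=
  ⟨fun s => (hy.1 s).lift h, fun s => (hy.2 s).lift h⟩

theorem Lead.Q {d : ℕ} (val : σ → ℤ) (r r' : σ) {y : V σ ℚ[X]} {u : V σ ℚ} (hy : Lead d y u) :
    Lead d (Q ℚ[X] val r r' y) (Q ℚ val r r' u) := by
  refine ⟨fun s => hy.1 _, fun s => ?_⟩
  have := (LD_alg (kap val r r' s)).mul (hy.2 (Equiv.swap r r' s))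
  rw [zero_add] at this
  exact this

theorem Lead.Z {d : ℕ} (c : σ → ℚ) {y : V σ ℚ[X]} {u : V σ ℚ} (hy : Lead d y u) :
    Lead d (Z (fun s => algebraMap ℚ ℚ[X] (c s)) y) (Z c u) := by
  refine ⟨fun s => hy.1 s, fun s => ?_⟩
  have := (LD_alg (c s)).mul (hy.1 s)
  rw [zero_add] at this
  exact (hy.2 s).add this

theorem Lead.fn {d : ℕ} (r : σ) (c : ℚ) {y : V σ ℚ[X]} {u : V σ ℚ} (hy : Lead d y u) :
    LD d (fn ℚ[X] r c y) (fn ℚ r c u) := by
  have h1 := LD.sum Finset.univ (fun s _ => hy.1 s)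
  have h2 := (LD_alg c).mul h1
  rw [zero_add] at h2
  exact h2.add (hy.2 r)

theorem Lead.vec (r : σ) (c : ℚ) : Lead 0 (vec ℚ[X] r c) (vec ℚ r c) := by
  refine ⟨fun s => ?_, fun s => LD_alg _⟩
  have h1 : LD 0 (1 : ℚ[X]) 1 := ⟨by simp, by simp⟩
  have h0 : LD 0 (0 : ℚ[X]) 0 := ⟨by simp, by simp⟩
  simp only [TubularLinear.vec]
  by_cases h : s = r
  · simp only [h, if_true]; exact h1
  · simp only [h, if_false]; exact h0

theorem Lead.PB {d : ℕ} (val : σ → ℤ) (r r' : σ) (c c' : ℚ) {y : V σ ℚ[X]} {u : V σ ℚ}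
    (hy : Lead d y u) :
    Lead (d + 2) (PB val (X : ℚ[X]) r r' c c' y)
      (((c - c')⁻¹ * TubularLinear.fn ℚ r' c u) • TubularLinear.vec ℚ r c') := by
  rw [PB_apply]
  have hX : LD 1 (X : ℚ[X]) 1 := ⟨natDegree_X_le, coeff_X_one⟩
  have hX1 : LD 1 (X - 1 : ℚ[X]) 1 := by
    refine ⟨?_, ?_⟩
    · have : (X - 1 : ℚ[X]) = X - C 1 := by simp
      rw [this]
      exact (natDegree_X_sub_C 1).le
    · rw [coeff_sub, coeff_X_one, coeff_one]
      simp
  have h1 : Lead (d + 2) ((X : ℚ[X]) • TubularLinear.Q ℚ[X] val r r' y) 0 := by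
    have := Lead.smul hX (hy.Q val r r')
    exact this.lift (by omega)
  have h2 : Lead (d + 2) (((X : ℚ[X]) * (X - 1) * algebraMap ℚ ℚ[X] (c - c')⁻¹ *
      TubularLinear.fn ℚ[X] r' c y) • TubularLinear.vec ℚ[X] r c')
      (((c - c')⁻¹ * TubularLinear.fn ℚ r' c u) • TubularLinear.vec ℚ r c') := by
    have h := Lead.smul (((hX.mul hX1).mul (LD_alg (c - c')⁻¹)).mul (hy.fn r' c)) (Lead.vec r c')
    have e1 : 1 + 1 + 0 + d + 0 = d + 2 := by omega
    have e2 : (1 * 1 * (c - c')⁻¹ * TubularLinear.fn ℚ r' c u : ℚ) =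
      (c - c')⁻¹ * TubularLinear.fn ℚ r' c u := by ring
    rw [e1, e2] at h
    exact h
  have h3 : Lead (d + 2) ((((X : ℚ[X]) - 1) * algebraMap ℚ ℚ[X] (c - c')⁻¹ *
      TubularLinear.fn ℚ[X] r c' (TubularLinear.Q ℚ[X] val r r' y)) •
      TubularLinear.Q ℚ[X] val r r' (TubularLinear.vec ℚ[X] r' c)) 0 := by
    have h := Lead.smul ((hX1.mul (LD_alg (c - c')⁻¹)).mul ((hy.Q val r r').fn r c'))
      ((Lead.vec r' c).Q val r r')
    exact h.lift (by omega)
  have := (h1.add h2).add h3
  rw [zero_add, add_zero] at this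
  exact this

/-- Coefficientwise extension of a ring homomorphism to vectors. -/
def mapV {R R' : Type} [CommRing R] [CommRing R'] (g : R →+* R') (y : V σ R) : V σ R' :=
  (fun s => g (y.1 s), fun s => g (y.2 s))

theorem mapV_PB {R R' : Type} [CommRing R] [CommRing R'] [Algebra ℚ R] [Algebra ℚ R']
    (g : R →+* R') (val : σ → ℤ) (x : R) (r r' : σ) (c c' : ℚ) (y : V σ R) :
    mapV g (PB val x r r' c c' y) = PB val (g x) r r' c c' (mapV g y) := by
  have hg : ∀ a : ℚ, g (algebraMap ℚ R a) = algebraMap ℚ R' a := by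
    intro a
    exact congrArg (fun f : ℚ →+* R' => f a) (Subsingleton.elim (g.comp (algebraMap ℚ R)) (algebraMap ℚ R'))
  rw [PB_apply, PB_apply]
  ext s
  · simp only [mapV, TubularLinear.Q, TubularLinear.fn, TubularLinear.vec,
      LinearMap.coe_mk, AddHom.coe_mk, Prod.fst_add, Prod.smul_fst, Pi.add_apply, Pi.smul_apply,
      smul_eq_mul, map_add, map_mul, map_sub, map_one, map_sum, hg, apply_ite g, map_zero]
  · simp only [mapV, TubularLinear.Q, TubularLinear.fn, TubularLinear.vec,
      LinearMap.coe_mk, AddHom.coe_mk, Prod.snd_add, Prod.smul_snd, Pi.add_apply, Pi.smul_apply,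
      smul_eq_mul, map_add, map_mul, map_sub, map_one, map_sum, hg]

end Lead

section Rep

variable {α β : Type} [Fintype α] [Fintype β] [DecidableEq α] [DecidableEq β]
variable (src tgt : β → α) (p q : β → ℤ)

/-- The finite set of slopes. -/
def slopes : Finset ℤ :=
  insert 0 (insert 1 ((Finset.univ.image fun b => -p b) ∪ Finset.univ.image q))

/-- Index type of the summands. -/
abbrev Sg : Type := {s : ℤ // s ∈ slopes p q}

/-- The field `ℚ(x)`. -/
abbrev K : Type := RatFunc ℚ

/-- Slope of a letter. -/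
def rr : (α ⊕ β) × Bool → Sg p q
  | (Sum.inl _, _) => ⟨0, by simp [slopes]⟩
  | (Sum.inr b, true) => ⟨-p b, by simp [slopes]⟩
  | (Sum.inr b, false) => ⟨q b, by simp [slopes]⟩

/-- Inverse letter. -/
def bar (l : (α ⊕ β) × Bool) : (α ⊕ β) × Bool := (l.1, !l.2)

theorem bar_bar (l : (α ⊕ β) × Bool) : bar (bar l) = l := by
  simp [bar]

theorem bar_ne (l : (α ⊕ β) × Bool) : bar l ≠ l := by
  intro h
  have := congrArg Prod.snd h
  simp [bar] at this

/-- Distinct fractions attached to the letters. -/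
noncomputable def cc (l : (α ⊕ β) × Bool) : ℚ :=
  ((Fintype.equivFin ((α ⊕ β) × Bool) l : ℕ) : ℚ) / (Fintype.card ((α ⊕ β) × Bool) : ℚ)

theorem cc_ne (l m : (α ⊕ β) × Bool) (h : l ≠ m) (k : ℤ) : cc l - cc m + (k : ℚ) ≠ 0 := by
  intro e
  unfold cc at e
  set N := Fintype.card ((α ⊕ β) × Bool) with hN
  set a := Fintype.equivFin ((α ⊕ β) × Bool) l with ha
  set b := Fintype.equivFin ((α ⊕ β) × Bool) m with hb
  have hpos : (0 : ℚ) < (N : ℚ) := by
    have : 0 < N := Fintype.card_pos_iff.2 ⟨l⟩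
    exact_mod_cast this
  have e1 : ((a : ℕ) : ℚ) - ((b : ℕ) : ℚ) + (k : ℚ) * (N : ℚ) = 0 := by
    change ((a : ℕ) : ℚ) / (N : ℚ) - ((b : ℕ) : ℚ) / (N : ℚ) + (k : ℚ) = 0 at e
    rw [← sub_div] at e
    have h2 : ((((a : ℕ) : ℚ) - ((b : ℕ) : ℚ)) / (N : ℚ) + (k : ℚ)) * (N : ℚ) = 0 := by
      rw [e, zero_mul]
    rw [add_mul, div_mul_cancel₀ _ hpos.ne'] at h2
    exact h2
  have e2 : ((a : ℕ) : ℤ) - ((b : ℕ) : ℤ) + k * (N : ℤ) = 0 := by
    exact_mod_cast e1
  have ha2 := a.2
  have hb2 := b.2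
  have hab : (a : ℕ) = (b : ℕ) := by
    by_contra hne
    rcases lt_trichotomy k 0 with hk | hk | hk
    · have : k * (N : ℤ) ≤ -(N : ℤ) := by nlinarith
      omega
    · subst hk
      omega
    · have : (N : ℤ) ≤ k * (N : ℤ) := by nlinarith
      omega
  exact h ((Fintype.equivFin ((α ⊕ β) × Bool)).injective (Fin.ext hab))

/-- The operator attached to a letter. -/
noncomputable def Mop (l : (α ⊕ β) × Bool) : Module.End K (V (Sg p q) K) :=
  (RatFunc.X : K)⁻¹ • PB Subtype.val (RatFunc.X : K) (rr p q l) (rr p q (bar l)) (cc l) (cc (bar l))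

theorem Mop_bar (l : (α ⊕ β) × Bool) : Mop p q (bar l) * Mop p q l = 1 := by
  refine LinearMap.ext fun y => ?_
  have hx : (RatFunc.X : K) ≠ 0 := RatFunc.X_ne_zero
  have hne : cc l ≠ cc (bar l) := by
    intro e
    have := cc_ne l (bar l) (bar_ne l).symm 0
    apply this
    rw [e]
    simp
  have h := PB_PB (R := K) (Subtype.val : Sg p q → ℤ) Subtype.val_injective RatFunc.X
    (rr p q l) (rr p q (bar l)) (cc l) (cc (bar l)) hne y
  simp only [Mop, Module.End.mul_apply, LinearMap.smul_apply, map_smul, bar_bar]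
  rw [h, smul_smul, smul_smul]
  have : (RatFunc.X : K)⁻¹ * (RatFunc.X : K)⁻¹ * (RatFunc.X * RatFunc.X) = 1 := by
    field_simp
  rw [this, one_smul]
  rfl

/-- The unit attached to a letter. -/
noncomputable def U (l : (α ⊕ β) × Bool) : (Module.End K (V (Sg p q) K))ˣ where
  val := Mop p q l
  inv := Mop p q (bar l)
  val_inv := by
    have := Mop_bar p q (bar l)
    rw [bar_bar] at this
    exact this
  inv_val := Mop_bar p q l

theorem U_bar (l : (α ⊕ β) × Bool) : U p q (bar l) = (U p q l)⁻¹ := by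
  apply Units.ext
  rfl

/-- The unipotent operators. -/
noncomputable def W (k j : ℤ) : (Module.End K (V (Sg p q) K))ˣ where
  val := Z fun s => ((k - s.1 * j : ℤ) : K)
  inv := Z fun s => ((-(k - s.1 * j) : ℤ) : K)
  val_inv := by
    refine LinearMap.ext fun y => ?_
    rw [Module.End.mul_apply, Z_Z]
    ext s
    · rfl
    · simp [Z]
  inv_val := by
    refine LinearMap.ext fun y => ?_
    rw [Module.End.mul_apply, Z_Z]
    ext s
    · rfl
    · simp [Z]

theorem W_mul (k j k' j' : ℤ) : W p q k j * W p q k' j' = W p q (k + k') (j + j') := by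
  apply Units.ext
  refine LinearMap.ext fun y => ?_
  rw [Units.val_mul, Module.End.mul_apply]
  simp only [W]
  rw [Z_Z]
  congr 1
  congr 1
  funext s
  simp only [Pi.add_apply]
  push_cast
  ring

theorem W_zero : W p q 0 0 = 1 := by
  apply Units.ext
  refine LinearMap.ext fun y => ?_
  ext s
  · rfl
  · simp [W, Z]

theorem W_inv (k j : ℤ) : (W p q k j)⁻¹ = W p q (-k) (-j) := by
  rw [inv_eq_iff_mul_eq_one, W_mul]
  rw [add_neg_cancel, add_neg_cancel, W_zero]

theorem W_zpow (k j n : ℤ) : W p q k j ^ n = W p q (n * k) (n * j) := by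
  induction n using Int.induction_on with
  | zero => simp [W_zero]
  | succ n ih =>
    rw [zpow_add_one, ih, W_mul]
    congr 1 <;> ring
  | pred n ih =>
    rw [zpow_sub_one, ih, W_inv, W_mul]
    congr 1 <;> ring

theorem W_U (l : (α ⊕ β) × Bool) :
    W p q (rr p q l).1 1 * U p q l = U p q l * W p q (rr p q (bar l)).1 1 := by
  apply Units.ext
  refine LinearMap.ext fun y => ?_
  rw [Units.val_mul, Units.val_mul, Module.End.mul_apply, Module.End.mul_apply]
  have h := Z_PB (R := K) (Subtype.val : Sg p q → ℤ) Subtype.val_injective RatFunc.X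
    (rr p q l) (rr p q (bar l)) (cc l) (cc (bar l)) y
  have e : ∀ r : Sg p q, (W p q r.1 1).1 = Z (cf K (Subtype.val : Sg p q → ℤ) r) := by
    intro r
    simp only [W]
    congr 1
    funext s
    simp [cf]
  rw [e, e]
  simp only [U, Mop, LinearMap.smul_apply, map_smul]
  rw [h]

/-- The letter of the tree edge at the fixed letter `a`. -/
def eL (β : Type) (a : α) : (α ⊕ β) × Bool := (Sum.inl a, true)

/-- The letter of the moved letter `b`. -/
def bL (α : Type) (b : β) : (α ⊕ β) × Bool := (Sum.inr b, true)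

/-- The representation of the free group. -/
noncomputable def rho : FreeGroup (α ⊕ β) →* (Module.End K (V (Sg p q) K))ˣ :=
  FreeGroup.lift (Sum.elim
    (fun a => U p q (eL β a) * W p q 1 0 * (U p q (eL β a))⁻¹)
    (fun b => U p q (eL β (src b)) * U p q (bL α b) * (U p q (eL β (tgt b)))⁻¹))

theorem rho_inl (a : α) : rho src tgt p q (FreeGroup.of (Sum.inl a)) =
    U p q (eL β a) * W p q 1 0 * (U p q (eL β a))⁻¹ := by
  simp [rho]

theorem rho_inr (b : β) : rho src tgt p q (FreeGroup.of (Sum.inr b)) =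
    U p q (eL β (src b)) * U p q (bL α b) * (U p q (eL β (tgt b)))⁻¹ := by
  simp [rho]

theorem rho_inl_zpow (a : α) (k : ℤ) : rho src tgt p q (FreeGroup.of (Sum.inl a)) ^ k =
    U p q (eL β a) * W p q k 0 * (U p q (eL β a))⁻¹ := by
  rw [rho_inl, conj_zpow, W_zpow]
  simp

theorem T_comm (a : α) : W p q 0 1 * U p q (eL β a) = U p q (eL β a) * W p q 0 1 :=
  W_U p q (eL β a)

theorem T_U (b : β) : W p q 0 1 * U p q (bL α b) =
    W p q (p b) 0 * U p q (bL α b) * W p q (q b) 0 * W p q 0 1 := by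
  have h : W p q (-p b) 1 * U p q (bL α b) = U p q (bL α b) * W p q (q b) 1 :=
    W_U p q (bL α b)
  have e1 : W p q 0 1 = W p q (p b) 0 * W p q (-p b) 1 := by
    rw [W_mul]; simp
  have e2 : W p q (q b) 1 = W p q (q b) 0 * W p q 0 1 := by
    rw [W_mul]; simp
  conv_lhs => rw [e1, mul_assoc, h, e2]
  simp only [mul_assoc]

theorem rho_conj (f : FreeGroup (α ⊕ β) →* FreeGroup (α ⊕ β))
    (h1 : ∀ a, f (FreeGroup.of (Sum.inl a)) = FreeGroup.of (Sum.inl a))
    (h2 : ∀ b, f (FreeGroup.of (Sum.inr b)) = FreeGroup.of (Sum.inl (src b)) ^ p b *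
      FreeGroup.of (Sum.inr b) * FreeGroup.of (Sum.inl (tgt b)) ^ q b) (w : FreeGroup (α ⊕ β)) :
    rho src tgt p q (f w) = W p q 0 1 * rho src tgt p q w * (W p q 0 1)⁻¹ := by
  have : (rho src tgt p q).comp f =
      (MulAut.conj (W p q 0 1)).toMonoidHom.comp (rho src tgt p q) := by
    apply FreeGroup.ext_hom
    rintro (a | b)
    · simp only [MonoidHom.comp_apply, h1, MulEquiv.coe_toMonoidHom, MulAut.conj_apply, rho_inl]
      have hW : W p q 0 1 * W p q 1 0 = W p q 1 0 * W p q 0 1 := by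
        rw [W_mul, W_mul]; simp
      have hT := T_comm p q (β := β) a
      have hT' : (U p q (eL β a))⁻¹ * (W p q 0 1)⁻¹ = (W p q 0 1)⁻¹ * (U p q (eL β a))⁻¹ := by
        rw [← mul_inv_rev, ← mul_inv_rev, hT]
      calc U p q (eL β a) * W p q 1 0 * (U p q (eL β a))⁻¹
          = U p q (eL β a) * (W p q 0 1 * W p q 1 0 * (W p q 0 1)⁻¹) * (U p q (eL β a))⁻¹ := by
            rw [hW]; group
        _ = (U p q (eL β a) * W p q 0 1) * W p q 1 0 *
              ((W p q 0 1)⁻¹ * (U p q (eL β a))⁻¹) := by group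
        _ = (W p q 0 1 * U p q (eL β a)) * W p q 1 0 *
              ((U p q (eL β a))⁻¹ * (W p q 0 1)⁻¹) := by rw [hT, hT']
        _ = _ := by group
    · simp only [MonoidHom.comp_apply, h2, MulEquiv.coe_toMonoidHom, MulAut.conj_apply, map_mul,
        map_zpow, rho_inl_zpow, rho_inr]
      have hT := T_comm p q (β := β) (src b)
      have hT2 := T_comm p q (β := β) (tgt b)
      have hT' : (U p q (eL β (tgt b)))⁻¹ * (W p q 0 1)⁻¹ =
          (W p q 0 1)⁻¹ * (U p q (eL β (tgt b)))⁻¹ := by
        rw [← mul_inv_rev, ← mul_inv_rev, hT2]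
      calc U p q (eL β (src b)) * W p q (p b) 0 * (U p q (eL β (src b)))⁻¹ *
            (U p q (eL β (src b)) * U p q (bL α b) * (U p q (eL β (tgt b)))⁻¹) *
            (U p q (eL β (tgt b)) * W p q (q b) 0 * (U p q (eL β (tgt b)))⁻¹)
          = U p q (eL β (src b)) * (W p q (p b) 0 * U p q (bL α b) * W p q (q b) 0 *
              W p q 0 1) * ((W p q 0 1)⁻¹ * (U p q (eL β (tgt b)))⁻¹) := by group
        _ = (U p q (eL β (src b)) * W p q 0 1) * U p q (bL α b) *
              ((U p q (eL β (tgt b)))⁻¹ * (W p q 0 1)⁻¹) := by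
            rw [← T_U, hT']; group
        _ = (W p q 0 1 * U p q (eL β (src b))) * U p q (bL α b) *
              ((U p q (eL β (tgt b)))⁻¹ * (W p q 0 1)⁻¹) := by rw [hT]
        _ = _ := by group
  exact DFunLike.congr_fun this w

end Rep

section NormalForm

variable {α β : Type} [Fintype α] [Fintype β] [DecidableEq α] [DecidableEq β]
variable (src tgt : β → α) (p q : β → ℤ)

/-- Start vertex of a letter (`none` is the base vertex). -/
def start : (α ⊕ β) × Bool → Option α
  | (Sum.inl _, true) => none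
  | (Sum.inl a, false) => some a
  | (Sum.inr b, true) => some (src b)
  | (Sum.inr b, false) => some (tgt b)

/-- Reduced paths. -/
def NFp : Option α → List (((α ⊕ β) × Bool) × ℤ) → Prop
  | v, [] => v = none
  | v, (l, k) :: L => start src tgt l = v ∧ (start src tgt (bar l) = none → k = 0) ∧
      (∀ m L', L = (bar l, m) :: L' → k ≠ 0) ∧ NFp (start src tgt (bar l)) L

/-- Group element of a letter. -/
def gen : (α ⊕ β) × Bool → FreeGroup (α ⊕ β)
  | (Sum.inl _, _) => 1
  | (Sum.inr b, true) => FreeGroup.of (Sum.inr b)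
  | (Sum.inr b, false) => (FreeGroup.of (Sum.inr b))⁻¹

theorem gen_bar (l : (α ⊕ β) × Bool) : gen l * gen (bar l) = 1 := by
  rcases l with ⟨a | b, _ | _⟩ <;> simp [gen, bar]

/-- Group element of a vertex. -/
def vx : Option α → FreeGroup (α ⊕ β)
  | none => 1
  | some a => FreeGroup.of (Sum.inl a)

/-- Group element of a path. -/
def evF : List (((α ⊕ β) × Bool) × ℤ) → FreeGroup (α ⊕ β)
  | [] => 1
  | (l, k) :: L => gen l * vx (start src tgt (bar l)) ^ k * evF L

/-- Operator of a path. -/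
noncomputable def evU : List (((α ⊕ β) × Bool) × ℤ) → (Module.End K (V (Sg p q) K))ˣ
  | [] => 1
  | (l, k) :: L => U p q l * W p q k 0 * evU L

/-- Representability of a pair (group element, operator) at a vertex. -/
def Repr (v : Option α) (g : FreeGroup (α ⊕ β)) (o : (Module.End K (V (Sg p q) K))ˣ) : Prop :=
  ∃ (m : ℤ) (L : List (((α ⊕ β) × Bool) × ℤ)), NFp src tgt v L ∧ (v = none → m = 0) ∧
    g = vx v ^ m * evF src tgt L ∧ o = W p q m 0 * evU p q L

theorem Repr.step (l : (α ⊕ β) × Bool) {g : FreeGroup (α ⊕ β)}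
    {o : (Module.End K (V (Sg p q) K))ˣ} (h : Repr src tgt p q (start src tgt (bar l)) g o) :
    Repr src tgt p q (start src tgt l) (gen l * g) (U p q l * o) := by
  obtain ⟨m, L, hL, hm, rfl, rfl⟩ := h
  by_cases hred : m = 0 ∧ ∃ m' L', L = (bar l, m') :: L'
  · obtain ⟨rfl, m', L', rfl⟩ := hred
    obtain ⟨_, h2, _, h4⟩ := hL
    rw [bar_bar] at h2 h4
    refine ⟨m', L', h4, h2, ?_, ?_⟩
    · simp only [evF, zpow_zero, one_mul, bar_bar]
      rw [← mul_assoc, ← mul_assoc, gen_bar, one_mul]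
    · simp only [evU]
      rw [W_zero, one_mul, U_bar, mul_assoc, mul_inv_cancel_left]
  · refine ⟨0, (l, m) :: L, ⟨rfl, hm, ?_, hL⟩, fun _ => rfl, ?_, ?_⟩
    · intro m' L' e hm0
      exact hred ⟨hm0, m', L', e⟩
    · simp only [evF, zpow_zero, one_mul, mul_assoc]
    · simp only [evU]
      rw [W_zero, one_mul, mul_assoc]

theorem Repr.vertex (a : α) (k : ℤ) {g : FreeGroup (α ⊕ β)}
    {o : (Module.End K (V (Sg p q) K))ˣ} (h : Repr src tgt p q (some a) g o) :
    Repr src tgt p q (some a) (FreeGroup.of (Sum.inl a) ^ k * g) (W p q k 0 * o) := by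
  obtain ⟨m, L, hL, hm, rfl, rfl⟩ := h
  refine ⟨k + m, L, hL, fun h => by simp at h, ?_, ?_⟩
  · simp only [vx]
    rw [zpow_add, mul_assoc]
  · rw [← mul_assoc, W_mul]
    simp

theorem repr_mk (w : List ((α ⊕ β) × Bool)) :
    Repr src tgt p q none (FreeGroup.mk w) (rho src tgt p q (FreeGroup.mk w)) := by
  induction w with
  | nil =>
    refine ⟨0, [], rfl, fun _ => rfl, ?_, ?_⟩
    · simp [evF, FreeGroup.one_eq_mk]
    · have : (FreeGroup.mk [] : FreeGroup (α ⊕ β)) = 1 := FreeGroup.one_eq_mk.symm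
      rw [this, map_one, W_zero]
      simp [evU]
  | cons c w ih =>
    have hcons : FreeGroup.mk (c :: w) = FreeGroup.mk [c] * FreeGroup.mk w := by
      rw [FreeGroup.mul_mk]; rfl
    rw [hcons, map_mul]
    rcases c with ⟨a | b, ε⟩
    · have hc : ∃ k : ℤ, FreeGroup.mk [((Sum.inl a : α ⊕ β), ε)] =
          FreeGroup.of (Sum.inl a) ^ k := by
        cases ε with
        | true => exact ⟨1, by rw [zpow_one]; rfl⟩
        | false => exact ⟨-1, by rw [zpow_neg_one]; rfl⟩
      obtain ⟨k, hk⟩ := hc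
      rw [hk, map_zpow, rho_inl_zpow]
      have h1 := Repr.step src tgt p q (l := bar (eL β a)) (by rw [bar_bar]; exact ih)
      have h2 := Repr.vertex src tgt p q a k h1
      have h3 := Repr.step src tgt p q (l := eL β a) h2
      have e1 : ∀ g : FreeGroup (α ⊕ β), gen (eL β a) * (FreeGroup.of (Sum.inl a) ^ k *
          (gen (bar (eL β a)) * g)) = FreeGroup.of (Sum.inl a) ^ k * g := by
        intro g
        simp [gen, eL, bar]
      rw [e1, U_bar] at h3
      simp only [mul_assoc]
      exact h3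
    · cases ε with
      | true =>
        have hc : FreeGroup.mk [((Sum.inr b : α ⊕ β), true)] = FreeGroup.of (Sum.inr b) := rfl
        rw [hc, rho_inr]
        have h1 := Repr.step src tgt p q (l := bar (eL β (tgt b))) (by rw [bar_bar]; exact ih)
        have h2 := Repr.step src tgt p q (l := bL α b) h1
        have h3 := Repr.step src tgt p q (l := eL β (src b)) h2
        have e1 : ∀ g : FreeGroup (α ⊕ β), gen (eL β (src b)) * (gen (bL α b) *
            (gen (bar (eL β (tgt b))) * g)) = FreeGroup.of (Sum.inr b) * g := by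
          intro g
          simp [gen, eL, bar, bL]
        rw [e1, U_bar] at h3
        simp only [mul_assoc]
        exact h3
      | false =>
        have hc : FreeGroup.mk [((Sum.inr b : α ⊕ β), false)] = (FreeGroup.of (Sum.inr b))⁻¹ :=
          rfl
        rw [hc, map_inv, rho_inr, mul_inv_rev, mul_inv_rev, inv_inv]
        have h1 := Repr.step src tgt p q (l := bar (eL β (src b))) (by rw [bar_bar]; exact ih)
        have h2 := Repr.step src tgt p q (l := bar (bL α b)) (by rw [bar_bar]; exact h1)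
        have h3 := Repr.step src tgt p q (l := eL β (tgt b)) h2
        have e1 : ∀ g : FreeGroup (α ⊕ β), gen (eL β (tgt b)) * (gen (bar (bL α b)) *
            (gen (bar (eL β (src b))) * g)) = (FreeGroup.of (Sum.inr b))⁻¹ * g := by
          intro g
          simp [gen, eL, bar, bL]
        rw [e1, U_bar, U_bar] at h3
        simp only [mul_assoc]
        exact h3

/-- The test vector. -/
def u0 (σ : Type) (R : Type) [CommRing R] : V σ R := (0, fun _ => 1)

theorem W_u0 (k j : ℤ) : (W p q k j).1 (u0 (Sg p q) K) = u0 (Sg p q) K := by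
  ext s
  · rfl
  · simp [W, Z, u0]

theorem Lead_u0 {σ : Type} [Fintype σ] [DecidableEq σ] : Lead 0 (u0 σ ℚ[X]) (u0 σ ℚ) := by
  have h1 : LD 0 (1 : ℚ[X]) 1 := ⟨by simp, by simp⟩
  have h0 : LD 0 (0 : ℚ[X]) 0 := ⟨by simp, by simp⟩
  exact ⟨fun s => h0, fun s => h1⟩

theorem mapV_Z {σ : Type} {R R' : Type} [CommRing R] [CommRing R'] (g : R →+* R') (k : ℤ)
    (y : V σ R) :
    mapV g (Z (fun _ => (k : R)) y) = Z (fun _ => (k : R')) (mapV g y) := by
  ext s
  · rfl
  · simp [mapV, Z]

theorem X_smul_U (l : (α ⊕ β) × Bool) (y : V (Sg p q) K) :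
    (RatFunc.X : K) • (U p q l).1 y = PB Subtype.val (RatFunc.X : K) (rr p q l)
      (rr p q (bar l)) (cc l) (cc (bar l)) y := by
  simp only [U, Mop, LinearMap.smul_apply, smul_smul]
  rw [mul_inv_cancel₀ RatFunc.X_ne_zero, one_smul]

theorem lead_path (L : List (((α ⊕ β) × Bool) × ℤ)) : ∀ (v : Option α) (l : (α ⊕ β) × Bool)
    (k : ℤ), NFp src tgt v ((l, k) :: L) →
    ∃ (y : V (Sg p q) ℚ[X]) (a : ℚ) (d : ℕ), a ≠ 0 ∧
      Lead d y (a • vec ℚ (rr p q l) (cc (bar l))) ∧
      mapV (algebraMap ℚ[X] K) y =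
        (RatFunc.X : K) ^ (L.length + 1) • (evU p q ((l, k) :: L)).1 (u0 (Sg p q) K) := by
  induction L with
  | nil =>
    intro v l k _
    refine ⟨PB Subtype.val (X : ℚ[X]) (rr p q l) (rr p q (bar l)) (cc l) (cc (bar l))
      (u0 (Sg p q) ℚ[X]), (cc l - cc (bar l))⁻¹ * fn ℚ (rr p q (bar l)) (cc l) (u0 (Sg p q) ℚ),
      0 + 2, ?_, Lead_u0.PB _ _ _ _ _, ?_⟩
    · have h1 : fn ℚ (rr p q (bar l)) (cc l) (u0 (Sg p q) ℚ) = 1 := by
        simp [fn, u0]
      rw [h1, mul_one]
      apply inv_ne_zero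
      have := cc_ne l (bar l) (bar_ne l).symm 0
      simpa using this
    · rw [mapV_PB, RatFunc.algebraMap_X]
      have h1 : mapV (algebraMap ℚ[X] K) (u0 (Sg p q) ℚ[X]) = u0 (Sg p q) K := by
        ext s
        · simp [mapV, u0]
        · simp [mapV, u0]
      rw [h1, ← X_smul_U]
      simp only [evU, List.length_nil, zero_add, pow_one, mul_one, Units.val_mul,
        Module.End.mul_apply, W_u0]
  | cons c L ih =>
    obtain ⟨μ, m⟩ := c
    intro v l k h
    obtain ⟨_, _, h3, h4⟩ := h
    obtain ⟨y, a, d, ha, hlead, hmap⟩ := ih _ μ m h4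
    set y1 := Z (fun _ => (k : ℚ[X])) y with hy1
    have hlead1 : Lead d y1 (Z (fun _ => (k : ℚ)) (a • vec ℚ (rr p q μ) (cc (bar μ)))) := by
      have := hlead.Z (fun _ => (k : ℚ))
      have e : (fun s : Sg p q => algebraMap ℚ ℚ[X] (k : ℚ)) = fun _ => (k : ℚ[X]) := by
        funext s
        exact map_intCast _ _
      rw [e] at this
      exact this
    refine ⟨PB Subtype.val (X : ℚ[X]) (rr p q l) (rr p q (bar l)) (cc l) (cc (bar l)) y1,
      (cc l - cc (bar l))⁻¹ * fn ℚ (rr p q (bar l)) (cc l)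
        (Z (fun _ => (k : ℚ)) (a • vec ℚ (rr p q μ) (cc (bar μ)))), d + 2, ?_,
      hlead1.PB _ _ _ _ _, ?_⟩
    · apply mul_ne_zero
      · apply inv_ne_zero
        have := cc_ne l (bar l) (bar_ne l).symm 0
        simpa using this
      · have e : fn ℚ (rr p q (bar l)) (cc l)
            (Z (fun _ => (k : ℚ)) (a • vec ℚ (rr p q μ) (cc (bar μ)))) =
            a * (cc l - cc (bar μ) +
              ((if rr p q (bar l) = rr p q μ then k else 0 : ℤ) : ℚ)) := by
          simp only [fn, Z, vec, LinearMap.coe_mk, AddHom.coe_mk, Prod.smul_fst, Prod.smul_snd,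
            Pi.smul_apply, smul_eq_mul, mul_ite, mul_one, mul_zero, Finset.sum_ite_eq',
            Finset.mem_univ, if_true, map_neg]
          by_cases hr : rr p q (bar l) = rr p q μ
          · simp only [hr, if_true]
            simp
            ring
          · simp only [hr, if_false]
            simp
            ring
        rw [e]
        apply mul_ne_zero ha
        by_cases hμ : μ = bar l
        · subst hμ
          rw [bar_bar, if_pos rfl, sub_self, zero_add]
          have := h3 m L rfl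
          exact_mod_cast this
        · apply cc_ne
          intro e'
          apply hμ
          rw [e', bar_bar]
    · rw [mapV_PB, RatFunc.algebraMap_X, hy1, mapV_Z, hmap, map_smul, map_smul, ← X_smul_U,
        smul_smul]
      have hW : ∀ z : V (Sg p q) K, Z (fun _ => (k : K)) z = (W p q k 0).1 z := by
        intro z
        simp only [W]
        congr 1
        congr 1
        funext s
        simp
      rw [hW]
      have hl : (((μ, m) :: L).length + 1) = L.length + 1 + 1 := rfl
      rw [hl, pow_succ]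
      rfl

theorem rho_T_ne (w : FreeGroup (α ⊕ β)) (j : ℤ)
    (h : rho src tgt p q w * W p q 0 j = 1) : w = 1 ∧ j = 0 := by
  obtain ⟨m, L, hL, hm, hw, ho⟩ := repr_mk src tgt p q w.toWord
  rw [FreeGroup.mk_toWord] at hw ho
  have hm0 := hm rfl
  subst hm0
  rw [W_zero, one_mul] at ho
  rw [zpow_zero, one_mul] at hw
  cases L with
  | nil =>
    have hw1 : w = 1 := hw
    refine ⟨hw1, ?_⟩
    rw [hw1, map_one, one_mul] at h
    have h1 := congrArg (fun u : (Module.End K (V (Sg p q) K))ˣ =>
      (u.1 ((fun _ => 1), 0)).2 ⟨1, by simp [slopes]⟩) h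
    simp [W, Z] at h1
    exact h1
  | cons c L =>
    exfalso
    obtain ⟨l, k⟩ := c
    obtain ⟨y, a, d, ha, hlead, hmap⟩ := lead_path src tgt p q L none l k hL
    rw [← ho] at hmap
    have h1 : (rho src tgt p q w).1 (u0 (Sg p q) K) = u0 (Sg p q) K := by
      have h2 := congrArg (fun u : (Module.End K (V (Sg p q) K))ˣ => u.1 (u0 (Sg p q) K)) h
      simp only [Units.val_mul, Module.End.mul_apply, W_u0] at h2
      exact h2
    rw [h1] at hmap
    have h3 := congrArg (fun z : V (Sg p q) K => z.1 (rr p q l)) hmap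
    simp only [mapV, u0, Prod.smul_fst, Pi.smul_apply, Pi.zero_apply, smul_zero] at h3
    have h4 : y.1 (rr p q l) = 0 := by
      apply RatFunc.algebraMap_injective ℚ
      rw [map_zero]
      exact h3
    have h5 := (hlead.1 (rr p q l)).2
    rw [h4] at h5
    simp [vec] at h5
    exact ha h5.symm

end NormalForm

section Final

variable {α β : Type} [Fintype α] [Fintype β] [DecidableEq α] [DecidableEq β]
variable (src tgt : β → α) (p q : β → ℤ)

theorem zpow_W (j : ℤ) : W p q 0 1 ^ j = W p q 0 j := by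
  rw [W_zpow]
  simp

theorem rho_conj_zpow (φ : Multiplicative ℤ →* MulAut (FreeGroup (α ⊕ β)))
    (h1 : ∀ a, φ (Multiplicative.ofAdd 1) (FreeGroup.of (Sum.inl a)) = FreeGroup.of (Sum.inl a))
    (h2 : ∀ b, φ (Multiplicative.ofAdd 1) (FreeGroup.of (Sum.inr b)) =
      FreeGroup.of (Sum.inl (src b)) ^ p b *
      FreeGroup.of (Sum.inr b) * FreeGroup.of (Sum.inl (tgt b)) ^ q b) (j : ℤ) :
    ∀ w : FreeGroup (α ⊕ β), rho src tgt p q (φ (Multiplicative.ofAdd j) w) =
      W p q 0 1 ^ j * rho src tgt p q w * (W p q 0 1 ^ j)⁻¹ := by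
  have key : ∀ w, rho src tgt p q (φ (Multiplicative.ofAdd 1) w) =
      W p q 0 1 * rho src tgt p q w * (W p q 0 1)⁻¹ :=
    fun w => rho_conj src tgt p q (φ (Multiplicative.ofAdd 1)).toMonoidHom h1 h2 w
  have hone : φ (Multiplicative.ofAdd (0 : ℤ)) = 1 := by
    rw [ofAdd_zero, map_one]
  induction j using Int.induction_on with
  | zero =>
    intro w
    rw [hone]
    simp
  | succ n ih =>
    intro w
    have e : Multiplicative.ofAdd ((n : ℤ) + 1) =
      Multiplicative.ofAdd (n : ℤ) * Multiplicative.ofAdd (1 : ℤ) := ofAdd_add _ _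
    rw [e, map_mul, MulAut.mul_apply, ih, key, zpow_add_one]
    group
  | pred n ih =>
    intro w
    have e : Multiplicative.ofAdd (-(n : ℤ)) =
      Multiplicative.ofAdd (-(n : ℤ) - 1) * Multiplicative.ofAdd (1 : ℤ) := by
      rw [← ofAdd_add]
      congr 1
      ring
    have h3 : ∀ v, rho src tgt p q (φ (Multiplicative.ofAdd (-(n : ℤ) - 1))
        (φ (Multiplicative.ofAdd 1) v)) =
        W p q 0 1 ^ (-(n : ℤ)) * rho src tgt p q v * (W p q 0 1 ^ (-(n : ℤ)))⁻¹ := by
      intro v
      rw [← ih v, e, map_mul, MulAut.mul_apply]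
    have h4 := h3 ((φ (Multiplicative.ofAdd 1)).symm w)
    rw [MulEquiv.apply_symm_apply] at h4
    have h5 := key ((φ (Multiplicative.ofAdd 1)).symm w)
    rw [MulEquiv.apply_symm_apply] at h5
    rw [h4, zpow_sub_one, h5]
    group

theorem lift_compat (φ : Multiplicative ℤ →* MulAut (FreeGroup (α ⊕ β)))
    (h1 : ∀ a, φ (Multiplicative.ofAdd 1) (FreeGroup.of (Sum.inl a)) = FreeGroup.of (Sum.inl a))
    (h2 : ∀ b, φ (Multiplicative.ofAdd 1) (FreeGroup.of (Sum.inr b)) =
      FreeGroup.of (Sum.inl (src b)) ^ p b *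
      FreeGroup.of (Sum.inr b) * FreeGroup.of (Sum.inl (tgt b)) ^ q b) :
    ∀ g : Multiplicative ℤ, (rho src tgt p q).comp (φ g).toMonoidHom =
      (MulAut.conj (zpowersHom _ (W p q 0 1) g)).toMonoidHom.comp (rho src tgt p q) := by
  intro g
  apply MonoidHom.ext
  intro w
  have := rho_conj_zpow src tgt p q φ h1 h2 g.toAdd w
  rw [ofAdd_toAdd] at this
  simp only [MonoidHom.comp_apply, MulEquiv.coe_toMonoidHom, MulAut.conj_apply, zpowersHom_apply]
  exact this

end Final

/-- The family of free-by-cyclic groups under consideration: the generator of `ℤ` fixes every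
letter of `α` and sends every letter `b` of `β` to `x ^ p * b * y ^ q` with letters `x = src b`,
`y = tgt b` of `α` and integers `p = p b`, `q = q b`. -/
def IsTubularAction {α β : Type} (src tgt : β → α) (p q : β → ℤ)
    (φ : Multiplicative ℤ →* MulAut (FreeGroup (α ⊕ β))) : Prop :=
  (∀ a : α, φ (Multiplicative.ofAdd 1) (FreeGroup.of (Sum.inl a)) = FreeGroup.of (Sum.inl a)) ∧
  ∀ b : β, φ (Multiplicative.ofAdd 1) (FreeGroup.of (Sum.inr b)) =
    FreeGroup.of (Sum.inl (src b)) ^ p b * FreeGroup.of (Sum.inr b) *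
      FreeGroup.of (Sum.inl (tgt b)) ^ q b

/-- The representation before choosing a basis. -/
theorem exists_rep (α β : Type) [Finite α] [Finite β] (src tgt : β → α) (p q : β → ℤ)
    (φ : Multiplicative ℤ →* MulAut (FreeGroup (α ⊕ β)))
    (hφ : IsTubularAction src tgt p q φ) :
    ∃ (W : Type) (_ : AddCommGroup W) (_ : Module K W) (_ : Module.Finite K W)
      (_ : Nontrivial W)
      (f : SemidirectProduct (FreeGroup (α ⊕ β)) (Multiplicative ℤ) φ →* (Module.End K W)ˣ),
      Function.Injective f := by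
  classical
  have := Fintype.ofFinite α
  have := Fintype.ofFinite β
  let F : SemidirectProduct (FreeGroup (α ⊕ β)) (Multiplicative ℤ) φ →*
      (Module.End K (V (Sg p q) K))ˣ :=
    SemidirectProduct.lift (rho src tgt p q) (zpowersHom _ (W p q 0 1))
      (lift_compat src tgt p q φ hφ.1 hφ.2)
  refine ⟨V (Sg p q) K, inferInstance, inferInstance, inferInstance, ?_, F, ?_⟩
  · have : Nonempty (Sg p q) := ⟨⟨0, by simp [slopes]⟩⟩
    infer_instance
  · rw [injective_iff_map_eq_one]
    intro g hg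
    have h1 : F g = rho src tgt p q g.left * W p q 0 g.right.toAdd := by
      have : F g = rho src tgt p q g.left * (zpowersHom _ (W p q 0 1)) g.right := rfl
      rw [this, zpowersHom_apply, zpow_W]
    rw [h1] at hg
    obtain ⟨h2, h3⟩ := rho_T_ne src tgt p q g.left g.right.toAdd hg
    apply SemidirectProduct.ext
    · exact h2
    · exact Multiplicative.toAdd.injective h3

section Coinduction

variable {k : Type} [Field k] {G : Type} [Group G] (H : Subgroup G)
variable {W : Type} [AddCommGroup W] [Module k W] (ρ : H →* (Module.End k W)ˣ)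

/-- The coinduced module. -/
def coind : Submodule k (G → W) where
  carrier := {f | ∀ (h : H) (x : G), f ((h : G) * x) = (ρ h).1 (f x)}
  add_mem' := by
    intro f f' hf hf' h x
    simp only [Pi.add_apply, map_add]
    rw [hf h x, hf' h x]
  zero_mem' := by
    intro h x
    simp
  smul_mem' := by
    intro c f hf h x
    simp only [Pi.smul_apply, map_smul]
    rw [hf h x]

/-- Right translation on the coinduced module. -/
def trans (g : G) : coind H ρ →ₗ[k] coind H ρ where
  toFun f := ⟨fun x => f.1 (x * g), fun h x => by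
    change f.1 ((h : G) * x * g) = (ρ h).1 (f.1 (x * g))
    rw [mul_assoc]; exact f.2 h (x * g)⟩
  map_add' _ _ := rfl
  map_smul' _ _ := rfl

theorem trans_mul (g g' : G) : trans H ρ (g * g') = trans H ρ g * trans H ρ g' := by
  refine LinearMap.ext fun f => ?_
  apply Subtype.ext
  funext x
  change f.1 (x * (g * g')) = f.1 (x * g * g')
  rw [mul_assoc]

theorem trans_one : trans H ρ (1 : G) = 1 := by
  refine LinearMap.ext fun f => ?_
  apply Subtype.ext
  funext x
  change f.1 (x * 1) = f.1 x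
  rw [mul_one]

/-- The coinduced representation. -/
def coindRep : G →* (Module.End k (coind H ρ))ˣ where
  toFun g := ⟨trans H ρ g, trans H ρ g⁻¹, by rw [← trans_mul, mul_inv_cancel, trans_one],
    by rw [← trans_mul, inv_mul_cancel, trans_one]⟩
  map_one' := Units.ext (trans_one H ρ)
  map_mul' g g' := Units.ext (trans_mul H ρ g g')

theorem coind_finite [H.FiniteIndex] [Module.Finite k W] : Module.Finite k (coind H ρ) := by
  classical
  -- representatives of the right cosets
  let s : G ⧸ H → G := fun c => (c.out)⁻¹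
  let r : coind H ρ →ₗ[k] ((G ⧸ H) → W) :=
    { toFun := fun f c => f.1 (s c)
      map_add' := fun _ _ => rfl
      map_smul' := fun _ _ => rfl }
  have hr : Function.Injective r := by
    rw [injective_iff_map_eq_zero]
    intro f hf
    apply Subtype.ext
    funext x
    have h1 : ((QuotientGroup.mk x⁻¹ : G ⧸ H).out)⁻¹ * x⁻¹ ∈ H := by
      rw [← QuotientGroup.eq]
      exact Quotient.out_eq _
    have h2 : f.1 (s (QuotientGroup.mk x⁻¹)) = 0 := congrFun hf _
    set y := s (QuotientGroup.mk x⁻¹ : G ⧸ H) with hy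
    have h3 : y * x⁻¹ ∈ H := h1
    have h4 : x = ((⟨y * x⁻¹, h3⟩ : H)⁻¹ : H) * y := by
      simp
    have h5 := f.2 (⟨y * x⁻¹, h3⟩ : H)⁻¹ y
    rw [← h4] at h5
    rw [h5, h2, map_zero]
    rfl
  have : Finite (G ⧸ H) := Subgroup.finite_quotient_of_finiteIndex
  exact Module.Finite.of_injective r hr

theorem coindRep_injective [Nontrivial W] (hρ : Function.Injective ρ) :
    Function.Injective (coindRep H ρ) := by
  classical
  rw [injective_iff_map_eq_one]
  intro g hg
  have h1 : ∀ f ∈ coind H ρ, f g = f 1 := by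
    intro f hf
    have h2 := congrArg (fun u : (Module.End k (coind H ρ))ˣ => (u.1 ⟨f, hf⟩).1 1) hg
    change f (1 * g) = f 1 at h2
    rw [one_mul] at h2
    exact h2
  let fv : W → G → W := fun v x => if h : x ∈ H then (ρ ⟨x, h⟩).1 v else 0
  have hfv : ∀ v, fv v ∈ coind H ρ := by
    intro v h x
    simp only [fv]
    by_cases hx : x ∈ H
    · have hhx : (h : G) * x ∈ H := H.mul_mem h.2 hx
      rw [dif_pos hx, dif_pos hhx]
      have e : (⟨(h : G) * x, hhx⟩ : H) = h * ⟨x, hx⟩ := rfl
      rw [e, map_mul]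
      rfl
    · have hhx : (h : G) * x ∉ H := fun h' => hx ((H.mul_mem_cancel_left h.2).1 h')
      rw [dif_neg hx, dif_neg hhx, map_zero]
  have h1' : ∀ v, fv v 1 = v := by
    intro v
    simp only [fv]
    rw [dif_pos H.one_mem]
    have e : (⟨1, H.one_mem⟩ : H) = 1 := rfl
    rw [e, map_one]
    rfl
  have hgH : g ∈ H := by
    by_contra hg'
    obtain ⟨v, hv⟩ := exists_ne (0 : W)
    have h2 := h1 _ (hfv v)
    rw [h1' v] at h2
    simp only [fv] at h2
    rw [dif_neg hg'] at h2
    exact hv h2.symm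
  have h3 : ρ ⟨g, hgH⟩ = 1 := by
    apply Units.ext
    refine LinearMap.ext fun v => ?_
    have h2 := h1 _ (hfv v)
    rw [h1' v] at h2
    simp only [fv] at h2
    rw [dif_pos hgH] at h2
    exact h2
  have h4 := hρ (h3.trans (map_one ρ).symm)
  exact congrArg Subtype.val h4

end Coinduction

/-- **Main theorem.** Let `α` (fixed letters) and `β` (moved letters) be finite sets and let
`φ` be an action of `ℤ` on the free group on `α ⊔ β` whose generator fixes every letter of `α`
and sends every letter `b` of `β` to `x ^ p * b * y ^ q` with letters `x = src b`, `y = tgt b` of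
`α` and integers `p = p b`, `q = q b`. Then every group `G` with a finite-index subgroup
isomorphic to the free-by-cyclic group `F(α ⊔ β) ⋊[φ] ℤ` is linear in characteristic zero. -/
theorem result (α β : Type) [Finite α] [Finite β] (src tgt : β → α) (p q : β → ℤ)
    (φ : Multiplicative ℤ →* MulAut (FreeGroup (α ⊕ β)))
    (hφ : IsTubularAction src tgt p q φ)
    (G : Type) [Group G] (H : Subgroup G) [H.FiniteIndex]
    (e : H ≃* SemidirectProduct (FreeGroup (α ⊕ β)) (Multiplicative ℤ) φ) :
    ∃ (K : Type) (_ : Field K) (m : ℕ) (f : G →* Matrix.GeneralLinearGroup (Fin m) K),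
      CharZero K ∧ Function.Injective f := by
  classical
  obtain ⟨W, _, _, _, _, f, hf⟩ := exists_rep α β src tgt p q φ hφ
  let ρ : H →* (Module.End K W)ˣ := f.comp e.toMonoidHom
  have hρ : Function.Injective ρ := hf.comp e.injective
  have : Module.Finite K (coind H ρ) := coind_finite H ρ
  have hc := coindRep_injective H ρ hρ
  let b := Module.finBasis K (coind H ρ)
  let g : (Module.End K (coind H ρ))ˣ →*
      Matrix.GeneralLinearGroup (Fin (Module.finrank K (coind H ρ))) K :=
    Units.map (LinearMap.toMatrixAlgEquiv b).toAlgHom.toRingHom.toMonoidHom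
  have hg : Function.Injective g := by
    intro u v huv
    apply Units.ext
    have := congrArg (fun z : Matrix.GeneralLinearGroup _ K => z.1) huv
    exact (LinearMap.toMatrixAlgEquiv b).injective this
  exact ⟨K, inferInstance, _, g.comp (coindRep H ρ), inferInstance, hg.comp hc⟩

end Pool.Agent.Helper45.Shelved.TubularLinear
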